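import Pool.Agent.L7h52.AR.Four
import Pool.Agent.L7h52.AR.Mas
import Pool.Agent.L7h52.AR.Zin
import Pool.Agent.L7h52.AR.Prj

/-!
# Almost every linear relation between ordinates of zeta zeros is almost never satisfied

No hypothesis on the zeros is assumed.  Let `n` be the number of the ordinates in `(0, T]` of
nontrivial zeros of `ζ`.  Call a vector `r` of `m ≥ 3` nonzero real coefficients *ε-frequent at `T`* if
for some real `y` more than `ε n ^ (m - 1)` of the tuples `x` of ordinates in `(0, T]` satisfy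
`r · x = y`, or at least `|r · x - y| ≤ κ ε min |r i| / log T`, with an absolute constant `κ > 0`
(the trivial bound for the number of solutions of `r · x = y` is `n ^ (m - 1)`).  Then, with an
absolute constant `C`:

* at every `T` at most `C / ε ^ 18` directions in the projective plane, separated by
  `1 / (T log T)`, are `ε`-frequent;
* at every `T` at most `2 (C / ε ^ 18) ^ (m - 2)` primitive integer vectors with `m` nonzero entries of
  modulus at most `√(T log T)` are `ε`-frequent;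
* at most `(C / ε ^ 18) ^ (m - 2) / δ` pairwise non-proportional real vectors are `ε`-frequent on a
  set of scales of lower density at least `δ` (for any sequence of scales tending to infinity).

Idea of the proof.  The number of solutions is at most an integral over `|u| ≤ A log T / min |r i|`,
`A = C / ε`, of the product of `G (r i u)`, where `G (v) = ∑ exp (i v γ)`.  By the bound for the
number of close pairs of zeros the mean square of `G` over `[0, V]`, `V ≥ log T`, is `O(T log T)`.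
Hence `|u| ≤ log T / min |r i|` contributes little, and so do the `u` for which one of the sums is
smaller than `ε' T log T`.  Hence a frequent relation has a `u` with three large sums.  But the large
values of `G` on `[0, V]` are covered by few intervals of length `ε' / T`, and a choice of three
such intervals determines the direction of `r` up to `1 / (T log T)`.
-/

set_option autoImplicit false

open Filter

namespace Pool.Agent.Results.MP_0ec205_nt.AlmostAllRelations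

/-- the ordinates in `(0, T]` of nontrivial zeros of `ζ` -/
def Om (T : ℝ) : Set ℝ :=
  {x | 0 < x ∧ x ≤ T ∧ ∃ ρ : ℂ, ρ.im = x ∧ 0 < ρ.re ∧ ρ.re < 1 ∧ riemannZeta ρ = 0}

/-- the form with the coefficients `r` is within `κ ε min |r i| / log T` of a fixed real `y` at more
than `ε n ^ (m - 1)` of the `n ^ m` tuples of ordinates in `(0, T]`, `n = #Om T` -/
def Frequent (κ T ε : ℝ) {m : ℕ} (r : Fin m → ℝ) : Prop :=
  ∃ y : ℝ, ε * ((Om T).ncard : ℝ) ^ (m - 1) <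
    (Set.ncard {x : Fin m → ℝ | (∀ i, x i ∈ Om T) ∧
      ∀ i, |∑ j, r j * x j - y| * Real.log T ≤ κ * ε * |r i|} : ℝ)

open Pool.Agent.L7h52.AR Pool.Agent.TH801.LU in
lemma Om_eq (T : ℝ) : Om T = (Gam T : Set ℝ) := by
  ext x
  rw [Finset.mem_coe, mem_Gam]
  constructor
  · rintro ⟨h1, h2, ρ, h3, h4, h5, h6⟩
    refine ⟨ρ, ?_, h3⟩
    rw [mem_ZZ, h3]
    exact ⟨h4, h5, h1, h2, h6⟩
  · rintro ⟨ρ, h, h3⟩
    rw [mem_ZZ, h3] at h
    exact ⟨h.2.2.1, h.2.2.2.1, ρ, h3, h.1, h.2.1, h.2.2.2.2⟩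

open Pool.Agent.L7h52.AR Pool.Agent.TH801.LU in
lemma frequent_iff (κ T ε : ℝ) {m : ℕ} (r : Fin m → ℝ) :
    Frequent κ T ε r ↔ Oft (Gam T) (Real.log T) κ ε r := by
  classical
  unfold Frequent Oft
  rw [Om_eq, Set.ncard_coe_finset]
  refine exists_congr fun y => ?_
  have h : {x : Fin m → ℝ | (∀ i, x i ∈ (Gam T : Set ℝ)) ∧
      ∀ i, |∑ j, r j * x j - y| * Real.log T ≤ κ * ε * |r i|} =
      (((Fintype.piFinset (fun _ : Fin m => Gam T)).filter (fun x : Fin m → ℝ =>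
        ∀ i, |∑ j, r j * x j - y| * Real.log T ≤ κ * ε * |r i|) : Finset (Fin m → ℝ)) :
        Set (Fin m → ℝ)) := by
    ext x
    simp only [Set.mem_ofPred_eq, Finset.coe_filter, Fintype.mem_piFinset, Finset.mem_coe]
  rw [h, Set.ncard_coe_finset]

/-- **Theorem.** -/
theorem result : ∃ κ C : ℝ, 0 < κ ∧ 1 ≤ C ∧
    (∀ T ε : ℝ, 0 < ε → ε ≤ 1 → C ≤ ε ^ 2 * T → ∀ F : Finset (Fin 3 → ℝ),
      (∀ r ∈ F, ∀ i, r i ≠ 0) →
      (∀ r ∈ F, ∀ r' ∈ F, r ≠ r' → ∃ i j, ∀ k l,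
        |r k| * |r' l| ≤ T * Real.log T * |r i * r' j - r j * r' i|) →
      (∀ r ∈ F, Frequent κ T ε r) → (F.card : ℝ) ≤ C / ε ^ 18) ∧
    (∀ T ε : ℝ, 0 < ε → ε ≤ 1 → C ≤ ε ^ 2 * T → ∀ m : ℕ, 3 ≤ m → ∀ F : Finset (Fin m → ℤ),
      (∀ r ∈ F, (∀ i, r i ≠ 0 ∧ |(r i : ℝ)| ≤ Real.sqrt (T * Real.log T)) ∧
        Finset.univ.gcd r = 1 ∧ Frequent κ T ε (fun i => (r i : ℝ))) →
      (F.card : ℝ) ≤ 2 * (C / ε ^ 18) ^ (m - 2)) ∧
    (∀ ε δ : ℝ, 0 < ε → ε ≤ 1 → 0 < δ → ∀ m : ℕ, 3 ≤ m → ∀ F : Finset (Fin m → ℝ),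
      (∀ r ∈ F, ∀ i, r i ≠ 0) → (∀ r ∈ F, ∀ r' ∈ F, r ≠ r' → ¬ ∃ c : ℝ, r' = c • r) →
      ∀ t : ℕ → ℝ, Tendsto t atTop atTop →
      (∀ r ∈ F, ∀ᶠ n : ℕ in atTop, δ * n ≤ (Set.ncard {k : ℕ | k < n ∧ Frequent κ (t k) ε r} : ℝ)) →
      δ * F.card ≤ (C / ε ^ 18) ^ (m - 2)) := by
  obtain ⟨C0, T0, hC0, hT0, hdat⟩ := Pool.Agent.L7h52.AR.dat
  obtain ⟨κ, R, hκ, _, hR, hmas⟩ := Pool.Agent.L7h52.AR.s_mas Pool.Agent.L7h52.AR.s_big
    Pool.Agent.L7h52.AR.s_cel (Pool.Agent.L7h52.AR.s_trv Pool.Agent.L7h52.AR.s_two) C0 hC0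
  -- the range of `T`
  have hbase : ∀ T ε : ℝ, 0 < ε → ε ≤ 1 → R + T0 ≤ ε ^ 2 * T → T0 ≤ T ∧ R ≤ ε ^ 2 * T := by
    intro T ε hε hε1 h
    have h1 : ε ^ 2 ≤ 1 := pow_le_one₀ hε.le hε1
    have h2 : 0 < ε ^ 2 := by positivity
    have h3 : 0 < T := by
      by_contra h4
      have : ε ^ 2 * T ≤ 0 := mul_nonpos_of_nonneg_of_nonpos h2.le (not_lt.1 h4)
      linarith
    constructor <;> nlinarith
  have hfirst : ∀ T ε : ℝ, 0 < ε → ε ≤ 1 → R + T0 ≤ ε ^ 2 * T → ∀ F : Finset (Fin 3 → ℝ),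
      (∀ r ∈ F, ∀ i, r i ≠ 0) →
      (∀ r ∈ F, ∀ r' ∈ F, r ≠ r' → Pool.Agent.L7h52.AR.Sep (T * Real.log T) r r') →
      (∀ r ∈ F, Frequent κ T ε r) → (F.card : ℝ) ≤ (R + T0) / ε ^ 18 := by
    intro T ε hε hε1 hT F hF hs hf
    obtain ⟨g1, g2⟩ := hbase T ε hε hε1 hT
    refine (hmas _ T (Real.log T) (hdat T g1) ε hε hε1 g2 F hF hs
      (fun r hr => (frequent_iff κ T ε r).1 (hf r hr))).trans ?_
    apply div_le_div_of_nonneg_right _ (by positivity)
    linarith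
  have hprj : ∀ T ε : ℝ, 0 < ε → 1 < T → ∀ (m : ℕ) (r : Fin (m + 3) → ℝ), (∀ i, r i ≠ 0) →
      Frequent κ T ε r → ∀ j : Fin (m + 3), j ≠ 0 → j ≠ 1 →
      Frequent κ T ε ![1, r 1 / r 0, r j / r 0] := by
    intro T ε hε hT m r hr hf j h0 h1
    rw [frequent_iff] at hf ⊢
    exact Pool.Agent.L7h52.AR.s_prj _ _ κ ε m r hε hκ (Real.log_pos hT) hr hf j h0 h1
  refine ⟨κ, R + T0, hκ, by linarith, hfirst, ?_, ?_⟩
  · intro T ε hε hε1 hT m hm F hF
    obtain ⟨g1, g2⟩ := hbase T ε hε hε1 hT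
    obtain ⟨m', rfl⟩ : ∃ m' : ℕ, m = m' + 3 := ⟨m - 3, by omega⟩
    have hN1 : 1 ≤ T * Real.log T := by
      have h1 : 1 ≤ Real.log T := by
        rw [Real.le_log_iff_exp_le (by linarith)]
        have := Real.exp_one_lt_d9
        linarith
      nlinarith
    have h2 := Pool.Agent.L7h52.AR.s_lz (fun r => Frequent κ T ε r) (T * Real.log T)
      ((R + T0) / ε ^ 18) hN1 (fun 𝓡 h1 h2 h3 => hfirst T ε hε hε1 hT 𝓡 h1 h2 h3) m' F
      (fun r hr i => by
        obtain ⟨h3, h4⟩ := (hF r hr).1 i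
        refine ⟨h3, ?_⟩
        have h5 : |(r i : ℝ)| ^ 2 ≤ Real.sqrt (T * Real.log T) ^ 2 :=
          pow_le_pow_left₀ (abs_nonneg _) h4 2
        rwa [sq_abs, Real.sq_sqrt (by linarith)] at h5)
      (fun r hr => (hF r hr).2.1)
      (fun r hr j hj0 hj1 => hprj T ε hε (by linarith) m' (fun i => (r i : ℝ))
        (fun i => by exact_mod_cast ((hF r hr).1 i).1) (hF r hr).2.2 j hj0 hj1)
    have e1 : m' + 3 - 2 = m' + 1 := by omega
    rw [e1]
    exact h2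
  · intro ε δ hε hε1 hδ m hm F hF hnp t ht hfreq
    obtain ⟨m', rfl⟩ : ∃ m' : ℕ, m = m' + 3 := ⟨m - 3, by omega⟩
    have e1 : m' + 3 - 2 = m' + 1 := by omega
    rw [e1]
    refine Pool.Agent.L7h52.AR.s_lr m' F (fun k r => 1 < t k → Frequent κ (t k) ε r)
      (fun k r => Frequent κ (t k) ε r)
      (fun k => t k * Real.log (t k)) ((R + T0) / ε ^ 18) δ (by positivity) hδ ?_ ?_ hF hnp ?_ hfreq
    · exact ht.atTop_mul_atTop₀ (Real.tendsto_log_atTop.comp ht)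
    · filter_upwards [ht.eventually_ge_atTop ((R + T0) / ε ^ 2 + 2)] with k hk 𝓡 h1 h2 h3
      have h4 : 0 ≤ (R + T0) / ε ^ 2 := by positivity
      refine hfirst (t k) ε hε hε1 ?_ 𝓡 h1 h2 (fun r hr => h3 r hr (by linarith))
      have h5 : (R + T0) / ε ^ 2 ≤ t k := by linarith
      rw [div_le_iff₀ (by positivity)] at h5
      linarith
    · intro r hr k hk j hj0 hj1 htk
      exact hprj (t k) ε hε htk m' r (hF r hr) hk j hj0 hj1

end Pool.Agent.Results.MP_0ec205_nt.AlmostAllRelations
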