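import Pool.Agent.L7h52.PR.Cor2

/-!
# Consecutive ordinates, linear relations with polynomial coefficients, and holonomic sequences

Let `0 < γ_1 ≤ γ_2 ≤ …` be the ordinates of the nontrivial zeros of the zeta function, with
multiplicity.  No hypothesis is assumed.  A sequence is called holonomic of order `k` and degree `D` on
an interval of indices if it satisfies there a relation
`p_0(n) y_n + … + p_k(n) y_{n+k} = q(n)` with real polynomials `p_i`, `q` of degree at most `D`, not all
`p_i` being zero.  Let `k` be fixed.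

* The ordinates `γ_1, …, γ_N` do not split into `B` holonomic pieces of degree `D` unless
  `B (D + 1) ≥ c N`; this is the true order, as `N` pieces always suffice.  More precisely, if
  `B (D + 1) ≤ c N`, then every sequence made of `B` such pieces differs from `γ` by more than `A` mean
  spacings at a positive proportion of the indices (`c` depends on `A`), and if
  `B (D + 1) ≤ N / (log N)^ε`, by more than `M √(log log N)` mean spacings.
* The same in almost all windows of any length.
* A linear relation with polynomial coefficients of degree `D` between `k + 1` consecutive ordinates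
  fails for at least `c N / (D + 1)` indices `n ≤ N`.

Idea of the proof.  Cut the indices into blocks of length `4 m` and let `H(j) = y_{j+m} - y_j - w` in one
block.  By linear algebra over the polynomials, for every `r` the terms of `H` along a progression of
difference `r` satisfy a relation of order `k + 2` with polynomial coefficients of degree
`O(m D)`, for all constants `w` at once (eliminate the other terms; the shifted relations are
independent).  These coefficients have `O(m^2 D)` sign changes of their comparisons for all `r ≤ m`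
together, so in all but `O(m^2 B (D + 1))` of the blocks, for every `r`, one and the same of the
coefficients is the largest one throughout the block, and then
`|H(j)| ≤ (k + 2) max |H(j ± i r)|` over `1 ≤ i ≤ k + 2`.  In most of the blocks the normal law holds
for `γ_{j+m} - γ_j` (`Pool.Agent.R321.QA.quenched`, helper321), so that `|H|` is at most `C √(log m)`
except for a small proportion of the `j`; choosing `r` well one obtains this for all `j` in the middle,
a contradiction to the normal law.
-/

set_option autoImplicit false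

open Polynomial

namespace Pool.Agent.Results.MP_0ec205_nt.FarFromHolonomicSequences

/-- multiplicity of `s` as a zero of the Riemann zeta function (order of vanishing at `s`) -/
noncomputable def zmult (s : ℂ) : ℕ := analyticOrderNatAt riemannZeta s

/-- the number of nontrivial zeros of `ζ` with ordinate in `(0, t]`, with multiplicity -/
noncomputable def NZ (t : ℝ) : ℕ :=
  ∑ᶠ s ∈ {s : ℂ | riemannZeta s = 0 ∧ 0 < s.re ∧ s.re < 1 ∧ 0 < s.im ∧ s.im ≤ t}, zmult s

/-- for `n ≥ 1`: the `n`-th positive ordinate `γ n` of a nontrivial zero of `ζ`, the ordinates being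
listed in nondecreasing order and repeated according to multiplicity -/
noncomputable def γ (n : ℕ) : ℝ := sInf {t : ℝ | n ≤ NZ t}

/-- `y` is holonomic of order `k` and degree `D` on `{a, …, b - 1}`: there are real polynomials
`p 0, …, p k`, not all zero, and `q` of degree at most `D` such that
`p_0(j) y_j + … + p_k(j) y_{j+k} = q(j)` whenever `a ≤ j` and `j + k < b` -/
def Hol (k D a b : ℕ) (y : ℕ → ℝ) : Prop :=
  ∃ p : Fin (k + 1) → ℝ[X], p ≠ 0 ∧ (∀ i, (p i).natDegree ≤ D) ∧ ∃ q : ℝ[X], q.natDegree ≤ D ∧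
    ∀ j, a ≤ j → j + k < b → ∑ i : Fin (k + 1), (p i).eval (j : ℝ) * y (j + i) = q.eval (j : ℝ)

/-- `{a, …, b - 1}` is the union of `B` consecutive intervals on each of which `y` is holonomic of
order `k` and degree `D` -/
def PHol (k D B a b : ℕ) (y : ℕ → ℝ) : Prop :=
  ∃ t : ℕ → ℕ, Monotone t ∧ t 0 = a ∧ t B = b ∧ ∀ s < B, Hol k D (t s) (t (s + 1)) y

/-- **Theorem** (no hypothesis).  Let `k` be given.

1. For every `A` there is `c > 0` such that for all large `N`, if `B (D + 1) ≤ c N` and `y` is made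
   of `B` holonomic pieces of order `k` and degree `D` on `{1, …, N}`, then `|γ_i - y_i| > A / log N`
   for at least `c N` of the indices `i ≤ N`.
2. For all `M` and `ε > 0` there is `δ > 0` such that for all large `N`, if
   `B (D + 1) ≤ N / (log N)^ε` and `y` is as in 1, then `|γ_i - y_i| > M √(log log N) / log N` for at
   least `δ N` of the indices `i ≤ N`.
3. For every `M` there is `δ > 0`, and for every `η > 0` there is `m₀`, such that for all `m ≥ m₀`, all
   `N` with `m log m ≤ log N`, all `L ≤ N` and all `B ≥ 1`, `D` with `m ^ 4 B (D + 1) ≤ L`, all but at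
   most `η N` of the indices `n ≤ N` have the property that every `y` made of `B` holonomic pieces of
   order `k` and degree `D` on `{n, …, n + L - 1}` satisfies `|γ_i - y_i| > M √(log m) / log N` for
   more than `δ L` of the indices `n ≤ i < n + L`.
4. There is `c > 0` such that for all large `N` and all `D` with `D + 1 ≤ c N`, every relation
   `p_0(n) γ_n + … + p_k(n) γ_{n+k} = q(n)` with real polynomials of degree at most `D`, not all `p_i`
   being zero, fails for at least `c N / (D + 1)` of the indices `n ≤ N`. -/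
theorem result (k : ℕ) :
    (∀ A : ℝ, ∃ c : ℝ, 0 < c ∧ ∃ N₀ : ℕ, ∀ N : ℕ, N₀ ≤ N → ∀ B D : ℕ,
      ((B * (D + 1) : ℕ) : ℝ) ≤ c * N → ∀ y : ℕ → ℝ, PHol k D B 1 (N + 1) y →
      c * N ≤ (({i : ℕ | 1 ≤ i ∧ i ≤ N ∧ A / Real.log N < |γ i - y i|} : Set ℕ).ncard : ℝ)) ∧
    (∀ M ε : ℝ, 0 < ε → ∃ δ : ℝ, 0 < δ ∧ ∃ N₀ : ℕ, ∀ N : ℕ, N₀ ≤ N → ∀ B D : ℕ,
      ((B * (D + 1) : ℕ) : ℝ) ≤ N / Real.log N ^ ε → ∀ y : ℕ → ℝ, PHol k D B 1 (N + 1) y →
      δ * N ≤ (({i : ℕ | 1 ≤ i ∧ i ≤ N ∧
        M * Real.sqrt (Real.log (Real.log N)) / Real.log N < |γ i - y i|} : Set ℕ).ncard : ℝ)) ∧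
    (∀ M : ℝ, ∃ δ : ℝ, 0 < δ ∧ ∀ η : ℝ, 0 < η → ∃ m₀ : ℕ, ∀ m : ℕ, m₀ ≤ m →
      ∀ N : ℕ, 1 ≤ N → (m : ℝ) * Real.log m ≤ Real.log N → ∀ L : ℕ, L ≤ N → ∀ B D : ℕ, 1 ≤ B →
      m ^ 4 * (B * (D + 1)) ≤ L →
      ({n : ℕ | 1 ≤ n ∧ n ≤ N ∧ ∃ y : ℕ → ℝ, PHol k D B n (n + L) y ∧
        (({i : ℕ | n ≤ i ∧ i < n + L ∧ M * Real.sqrt (Real.log m) / Real.log N < |γ i - y i|} :
          Set ℕ).ncard : ℝ) ≤ δ * L}.ncard : ℝ) ≤ η * N) ∧
    (∃ c : ℝ, 0 < c ∧ ∃ N₀ : ℕ, ∀ N : ℕ, N₀ ≤ N → ∀ D : ℕ, (D : ℝ) + 1 ≤ c * N →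
      ∀ p : Fin (k + 1) → ℝ[X], p ≠ 0 → (∀ i, (p i).natDegree ≤ D) →
      ∀ q : ℝ[X], q.natDegree ≤ D →
      c * N ≤ (D + 1) * (({n : ℕ | 1 ≤ n ∧ n ≤ N ∧
        ∑ i : Fin (k + 1), (p i).eval (n : ℝ) * γ (n + i) ≠ q.eval (n : ℝ)} : Set ℕ).ncard : ℝ)) :=
  ⟨Pool.Agent.L7h52.PR.whole_a k, fun M _ hε => Pool.Agent.L7h52.PR.whole_b k M hε,
    Pool.Agent.L7h52.PR.master k, Pool.Agent.L7h52.PR.exact_rel k⟩

end Pool.Agent.Results.MP_0ec205_nt.FarFromHolonomicSequences
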