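import Pool.Agent.L7h52.LF.Pig
import Pool.Agent.L7h52.LF.Wea
import Pool.Agent.L7h52.LF.We3
import Pool.Agent.L7h52.LF.Mom
import Pool.Agent.L7h52.LF.Br
import Pool.Agent.L7h52.AR.Zin
import Pool.Agent.L7h22.LF.Ls
import Pool.Agent.L7h22.LF.Dis
import Pool.Agent.L7h22.LF.En3
import Pool.Agent.L7h37.LF.Col
import Pool.Agent.L7h37.LF.Lay
import Pool.Agent.L7h37.LF.Co3

/-!
# Integer linear forms in the ordinates of zeta zeros, on average over the coefficients

No hypothesis on the zeros is assumed.  Let `n` be the number of the ordinates in `(0, T]` of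
nontrivial zeros of `ζ`, let `m ≥ 3`, and let `Θ = H ^ (m - 1)` if `m ≥ 4`,
`Θ = H ^ 2 (1 + log H) ^ 6` if `m = 3`.

* (1) For `C H ^ 2 ≤ n` and any real numbers `y r`, the number of pairs of an integer vector `r` with
  entries of modulus at most `H`, at least two of them nonzero, and an `m`-tuple `x` of ordinates in
  `(0, T]` with `|r · x - y r| ≤ 1 / log T` is at most `C Θ n ^ (m - 1)`.
* (2) For every `H` at most `C Θ n ^ (m - 1)` of the `n ^ m` tuples `x` have `|r · x| ≤ 1 / log T` for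
  a nonzero integer vector `r` with entries of modulus at most `H`.
* (3) For suitable `y` the number in (1) is at least `H ^ (m - 1) n ^ (m - 1) / C`.
* (4) If `H ^ (m - 1) ≥ C n` then every tuple has such a vector `r`.

So for `m ≥ 4` the bounds (1) and (2) have the right order, and `n ^ (1 / (m - 1))` is the threshold of
the height at which almost all tuples of ordinates begin to have an approximate relation; for `m = 3`
this holds up to a power of the logarithm.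

Idea of the proof.  The number in (1) is at most `C / log T` times the integral over
`[0, log T]` of `n ^ (m - 2) B ^ 2 + B ^ m`, where `B (v) = ∑ |G (a v)|`, `1 ≤ a ≤ H`, and
`G (v) = ∑ exp (i v γ)`.  For a dyadic block `h ≤ a < 2 h` and a set `J` of `2 / (h T)`-separated
`v ∈ [log T / h, log T]` at which the block is large, the double sum over `v ∈ J` and `a` is estimated
by Cauchy's inequality, by the large sieve for the points `a v`, and by a bound for the number of the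
coincidences `|a v - a' v'| < 1 / T`.  For fixed `v`, `v'` all solutions are multiples of one,
`(p, q)`, and so there are at most `2 h / max p q`; to sum this over `v`, `v'` we pass to walks of
length three in `J`, and then for fixed ends of the walk we need the number of the solutions of
`|p₁ p₂ p₃ x - q₁ q₂ q₃ y| ≤ 24 h ^ 2 / T`, which is estimated by the multiplicative energy of
intervals.
-/

set_option autoImplicit false

open Filter

namespace Pool.Agent.Results.MP_0ec205_nt.LinearFormsOnAverage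

/-- the ordinates in `(0, T]` of nontrivial zeros of `ζ` -/
def Om (T : ℝ) : Set ℝ :=
  {x | 0 < x ∧ x ≤ T ∧ ∃ ρ : ℂ, ρ.im = x ∧ 0 < ρ.re ∧ ρ.re < 1 ∧ riemannZeta ρ = 0}

/-- the integer vectors with entries of modulus at most `H`, at least two of them nonzero -/
def Coeff (m H : ℕ) : Set (Fin m → ℤ) :=
  {r | (∀ i, |r i| ≤ (H : ℤ)) ∧ ∃ i j, i ≠ j ∧ r i ≠ 0 ∧ r j ≠ 0}

/-- the number of tuples of ordinates in `(0, T]` with `|r · x - y| ≤ 1 / log T` -/
noncomputable def count (T : ℝ) {m : ℕ} (r : Fin m → ℤ) (y : ℝ) : ℕ :=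
  Set.ncard {x : Fin m → ℝ | (∀ i, x i ∈ Om T) ∧ |∑ i, (r i : ℝ) * x i - y| * Real.log T ≤ 1}

/-- the number of tuples of ordinates in `(0, T]` with `|r · x| ≤ 1 / log T` for some nonzero integer
vector `r` with entries of modulus at most `H` -/
noncomputable def tuples (T : ℝ) (m H : ℕ) : ℕ :=
  Set.ncard {x : Fin m → ℝ | (∀ i, x i ∈ Om T) ∧
    ∃ r : Fin m → ℤ, r ≠ 0 ∧ (∀ i, |r i| ≤ (H : ℤ)) ∧ |∑ i, (r i : ℝ) * x i| * Real.log T ≤ 1}

/-- the bounding function, for `m ≥ 3` -/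
noncomputable def Theta (m : ℕ) (H : ℝ) : ℝ :=
  if m = 3 then H ^ 2 * (1 + Real.log H) ^ 6 else H ^ (m - 1)

open Pool.Agent.L7h52.AR Pool.Agent.TH801.LU in
lemma Om_eq (T : ℝ) : Om T = (Gam T : Set ℝ) := by
  ext x
  rw [Finset.mem_coe, mem_Gam]
  constructor
  · rintro ⟨h1, h2, ρ, h3, h4, h5, h6⟩
    refine ⟨ρ, ?_, h3⟩
    rw [mem_ZZ, h3]
    exact ⟨h4, h5, h1, h2, h6⟩
  · rintro ⟨ρ, h, h3⟩
    rw [mem_ZZ, h3] at h
    exact ⟨h.2.2.1, h.2.2.2.1, ρ, h3, h.1, h.2.1, h.2.2.2.2⟩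

open Pool.Agent.L7h52.AR Pool.Agent.TH801.LU in
lemma ncard_Om (T : ℝ) : (Om T).ncard = (Gam T).card := by
  rw [Om_eq, Set.ncard_coe_finset]

lemma Coeff_eq (m H : ℕ) : Coeff m H = (Pool.Agent.L7h52.LF.RZ m H : Set (Fin m → ℤ)) := by
  ext r
  rw [Finset.mem_coe, Pool.Agent.L7h52.LF.mem_RZ]
  exact Iff.rfl

open Pool.Agent.TH801.LU in
lemma count_eq (T : ℝ) {m : ℕ} (r : Fin m → ℤ) (y : ℝ) (hT : 1 < T) :
    (count T r y : ℝ) = Pool.Agent.L7h52.AR.cnt (Gam T) (fun i => (r i : ℝ)) y (1 / Real.log T) := by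
  classical
  have hl : 0 < Real.log T := Real.log_pos hT
  unfold count Pool.Agent.L7h52.AR.cnt
  have h : {x : Fin m → ℝ | (∀ i, x i ∈ Om T) ∧ |∑ i, (r i : ℝ) * x i - y| * Real.log T ≤ 1} =
      (((Fintype.piFinset (fun _ : Fin m => Gam T)).filter (fun x : Fin m → ℝ =>
        |∑ i, (fun i => (r i : ℝ)) i * x i - y| ≤ 1 / Real.log T) : Finset (Fin m → ℝ)) :
        Set (Fin m → ℝ)) := by
    ext x
    simp only [Om_eq, Set.mem_ofPred_eq, Finset.coe_filter, Fintype.mem_piFinset, Finset.mem_coe]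
    rw [le_div_iff₀ hl]
  rw [h, Set.ncard_coe_finset]

open Pool.Agent.TH801.LU in
/-- ordinates are bounded below -/
lemma low_ord : ∃ δ : ℝ, 0 < δ ∧ ∀ T : ℝ, ∀ x ∈ Gam T, δ ≤ x := by
  classical
  have hp : ∀ x ∈ Gam 1, 0 < x := fun x hx => (Pool.Agent.L7h52.AR.Gam_pos hx).1
  obtain ⟨δ, hδ, h1⟩ : ∃ δ : ℝ, 0 < δ ∧ ∀ x ∈ Gam 1, δ ≤ x := by
    rcases (Gam 1).eq_empty_or_nonempty with h | h
    · refine ⟨1, one_pos, fun x hx => ?_⟩
      rw [h] at hx
      exact absurd hx (Finset.notMem_empty x)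
    · exact ⟨(Gam 1).min' h, hp _ ((Gam 1).min'_mem h), fun x hx => (Gam 1).min'_le x hx⟩
  refine ⟨min δ 1, lt_min hδ one_pos, fun T x hx => ?_⟩
  rcases le_or_gt x 1 with hx1 | hx1
  · refine (min_le_left _ _).trans (h1 x ?_)
    obtain ⟨z, hz, hzx⟩ := mem_Gam.1 hx
    rw [mem_Gam]
    refine ⟨z, ?_, hzx⟩
    rw [mem_ZZ] at hz ⊢
    exact ⟨hz.1, hz.2.1, hz.2.2.1, by rw [hzx]; exact hx1, hz.2.2.2.2⟩
  · exact (min_le_right _ _).trans hx1.le

lemma Theta_eq (m : ℕ) (H : ℝ) (hm : 3 ≤ m) : Theta m H = Pool.Agent.L7h52.LF.Th m H := by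
  unfold Theta Pool.Agent.L7h52.LF.Th
  have : m = 3 ↔ m ≤ 3 := by omega
  simp only [this]

lemma card_RZ (m H : ℕ) (hm : 2 ≤ m) : (H : ℝ) ^ m ≤ (Pool.Agent.L7h52.LF.RZ m H).card := by
  classical
  have h1 : Fintype.piFinset (fun _ : Fin m => Finset.Icc (1 : ℤ) H) ⊆
      Pool.Agent.L7h52.LF.RZ m H := by
    intro r hr
    rw [Fintype.mem_piFinset] at hr
    rw [Pool.Agent.L7h52.LF.mem_RZ]
    have h2 : ∀ i, 1 ≤ r i ∧ r i ≤ (H : ℤ) := fun i => Finset.mem_Icc.1 (hr i)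
    refine ⟨fun i => ?_, ⟨0, by omega⟩, ⟨1, by omega⟩, ?_, ?_, ?_⟩
    · have := h2 i
      rw [abs_le]
      constructor <;> omega
    · intro h
      have := congrArg Fin.val h
      simp at this
    · have := h2 ⟨0, by omega⟩
      omega
    · have := h2 ⟨1, by omega⟩
      omega
  have h2 := Finset.card_le_card h1
  rw [Fintype.card_piFinset, Finset.prod_const, Int.card_Icc, Finset.card_univ, Fintype.card_fin] at h2
  have h3 : ((H : ℤ) + 1 - 1).toNat = H := by omega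
  rw [h3] at h2
  exact_mod_cast h2

theorem dya : Pool.Agent.L7h52.LF.S_DYA := by
  have ls := Pool.Agent.L7h22.LF.s_LS
  have wea := Pool.Agent.L7h52.LF.s_wea ls Pool.Agent.L7h37.LF.s_COL
  have co3 := Pool.Agent.L7h37.LF.s_CO3 Pool.Agent.L7h22.LF.s_EN3 Pool.Agent.L7h52.LF.s_br
  have we3 := Pool.Agent.L7h52.LF.s_we3 ls co3
  exact Pool.Agent.L7h52.LF.s_dya (Pool.Agent.L7h52.LF.s_mom wea we3
    (Pool.Agent.L7h52.LF.s_l2d ls) Pool.Agent.L7h37.LF.s_LAY Pool.Agent.L7h22.LF.s_DIS)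

open Pool.Agent.TH801.LU in
/-- **Theorem.** -/
theorem result : ∀ m : ℕ, 3 ≤ m → ∃ C : ℝ, 1 ≤ C ∧ ∀ T : ℝ, C ≤ T → ∀ H : ℕ, 1 ≤ H →
    (C * (H : ℝ) ^ 2 ≤ (Om T).ncard → ∀ y : (Fin m → ℤ) → ℝ,
      ∑ᶠ r ∈ Coeff m H, (count T r (y r) : ℝ) ≤ C * Theta m H * ((Om T).ncard : ℝ) ^ (m - 1)) ∧
    (tuples T m H : ℝ) ≤ C * Theta m H * ((Om T).ncard : ℝ) ^ (m - 1) ∧
    (∃ y : (Fin m → ℤ) → ℝ, (H : ℝ) ^ (m - 1) * ((Om T).ncard : ℝ) ^ (m - 1) ≤
      C * ∑ᶠ r ∈ Coeff m H, (count T r (y r) : ℝ)) ∧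
    (C * (Om T).ncard ≤ (H : ℝ) ^ (m - 1) → ∀ x : Fin m → ℝ, (∀ i, x i ∈ Om T) →
      ∃ r : Fin m → ℤ, r ≠ 0 ∧ (∀ i, |r i| ≤ (H : ℤ)) ∧
        |∑ i, (r i : ℝ) * x i| * Real.log T ≤ 1) := by
  classical
  intro m hm
  obtain ⟨C0, T0, hC0, hT0, hdat⟩ := Pool.Agent.L7h52.AR.dat
  obtain ⟨K, hK, hall⟩ := Pool.Agent.L7h52.LF.s_all dya C0 m hC0 hm
  obtain ⟨δ, hδ, hlow⟩ := low_ord
  have hC00 : 0 < C0 := by linarith
  have hKC : 1 ≤ K * C0 ^ (m - 1) := by
    have : 1 ≤ C0 ^ (m - 1) := one_le_pow₀ hC0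
    nlinarith
  have hexp : 0 < Real.exp (1 / δ + 1) := Real.exp_pos _
  have hm0 : (0 : ℝ) ≤ m := Nat.cast_nonneg m
  obtain ⟨C, hC⟩ : ∃ C : ℝ, C = K * C0 ^ (m - 1) + 16 * C0 + (m + 2) * C0 + T0 +
    Real.exp (1 / δ + 1) := ⟨_, rfl⟩
  have hC1 : K * C0 ^ (m - 1) ≤ C := by rw [hC]; nlinarith
  have hC2 : 16 * C0 ≤ C := by rw [hC]; nlinarith
  have hC3 : (m + 2) * C0 ≤ C := by rw [hC]; nlinarith
  have hC4 : T0 ≤ C := by rw [hC]; nlinarith
  have hC5 : Real.exp (1 / δ + 1) ≤ C := by rw [hC]; nlinarith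
  have hCp : 0 < C := by linarith
  refine ⟨C, by linarith, ?_⟩
  intro T hT H hH
  have hTT0 : T0 ≤ T := hC4.trans hT
  have hD := hdat T hTT0
  have hT4 : 4 ≤ T := hT0.trans hTT0
  have hT1 : 1 < T := by linarith
  have hTp : 0 < T := by linarith
  have hl : 0 < Real.log T := Real.log_pos hT1
  have hlδ : 1 / Real.log T < δ := by
    have h1 : 1 / δ + 1 ≤ Real.log T := by
      rw [Real.le_log_iff_exp_le hTp]
      exact hC5.trans hT
    rw [div_lt_iff₀ hl]
    have h2 : 1 / δ < Real.log T := by linarith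
    rw [div_lt_iff₀ hδ] at h2
    linarith
  have hH1 : (1 : ℝ) ≤ H := by exact_mod_cast hH
  have hH0 : (0 : ℝ) < H := by linarith
  rw [Theta_eq m H hm, ncard_Om, Coeff_eq]
  obtain ⟨n, hn⟩ : ∃ n : ℝ, n = ((Gam T).card : ℝ) := ⟨_, rfl⟩
  rw [← hn]
  obtain ⟨N, hN⟩ : ∃ N : ℝ, N = T * Real.log T := ⟨_, rfl⟩
  have hN0 : 0 < N := by rw [hN]; positivity
  have hN1 : 1 ≤ N := by
    rw [hN]
    have := hD.hT
    have := hD.hl
    nlinarith
  have hup : n ≤ C0 * N := by rw [hn, hN]; exact hD.up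
  have hlo : N ≤ C0 * n := by rw [hn, hN]; exact hD.low
  have hn0 : 0 < n := by
    by_contra hneg
    push Not at hneg
    have : C0 * n ≤ 0 := mul_nonpos_of_nonneg_of_nonpos hC00.le hneg
    linarith
  have hTh2 := Pool.Agent.L7h52.LF.sq_le_Th m (H : ℝ) hH1
  have hTh0 : 0 ≤ Pool.Agent.L7h52.LF.Th m (H : ℝ) := le_trans (by positivity) hTh2
  have hsumeq : ∀ y : (Fin m → ℤ) → ℝ,
      ∑ᶠ r ∈ (Pool.Agent.L7h52.LF.RZ m H : Set (Fin m → ℤ)), (count T r (y r) : ℝ) =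
      ∑ r ∈ Pool.Agent.L7h52.LF.RZ m H, (count T r (y r) : ℝ) := fun y =>
    finsum_mem_coe_finset _ _
  -- the upper bound
  have hmain : 16 * C0 * (H : ℝ) ^ 2 ≤ n → ∀ y : (Fin m → ℤ) → ℝ,
      ∑ r ∈ Pool.Agent.L7h52.LF.RZ m H,
        Pool.Agent.L7h52.AR.cnt (Gam T) (fun i => (r i : ℝ)) (y r) (1 / Real.log T) ≤
      K * C0 ^ (m - 1) * Pool.Agent.L7h52.LF.Th m H * n ^ (m - 1) := by
    intro h16 y
    have h1 : 16 * (H : ℝ) ^ 2 ≤ T * Real.log T := by
      rw [← hN]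
      have h2 : C0 * (16 * (H : ℝ) ^ 2) ≤ C0 * N := by linarith
      exact le_of_mul_le_mul_left h2 hC00
    refine (hall (Gam T) T (Real.log T) hD H hH h1 y).trans ?_
    rw [← hN]
    calc K * Pool.Agent.L7h52.LF.Th m H * N ^ (m - 1) ≤
        K * Pool.Agent.L7h52.LF.Th m H * (C0 * n) ^ (m - 1) := by gcongr
      _ = _ := by rw [mul_pow]; ring
  refine ⟨?_, ?_, ?_, ?_⟩
  · intro hCH y
    rw [hsumeq]
    have h1 := hmain (le_trans (by gcongr) hCH) y
    have h2 : ∀ r : Fin m → ℤ, (count T r (y r) : ℝ) =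
        Pool.Agent.L7h52.AR.cnt (Gam T) (fun i => (r i : ℝ)) (y r) (1 / Real.log T) :=
      fun r => count_eq T r (y r) hT1
    simp only [h2]
    refine h1.trans ?_
    gcongr
  · have htup : (tuples T m H : ℝ) = ((((Fintype.piFinset (fun _ : Fin m => Gam T)).filter
        (fun x : Fin m → ℝ => ∃ r : Fin m → ℤ, r ≠ 0 ∧ (∀ i, |r i| ≤ (H : ℤ)) ∧
          |∑ i, (r i : ℝ) * x i| * Real.log T ≤ 1)).card : ℕ) : ℝ) := by
      unfold tuples
      have h : {x : Fin m → ℝ | (∀ i, x i ∈ Om T) ∧ ∃ r : Fin m → ℤ, r ≠ 0 ∧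
          (∀ i, |r i| ≤ (H : ℤ)) ∧ |∑ i, (r i : ℝ) * x i| * Real.log T ≤ 1} =
          (((Fintype.piFinset (fun _ : Fin m => Gam T)).filter (fun x : Fin m → ℝ =>
            ∃ r : Fin m → ℤ, r ≠ 0 ∧ (∀ i, |r i| ≤ (H : ℤ)) ∧
            |∑ i, (r i : ℝ) * x i| * Real.log T ≤ 1) : Finset (Fin m → ℝ)) :
            Set (Fin m → ℝ)) := by
        ext x
        simp only [Om_eq, Set.mem_ofPred_eq, Finset.coe_filter, Fintype.mem_piFinset,
          Finset.mem_coe]
      rw [h, Set.ncard_coe_finset]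
    rcases le_or_gt (16 * C0 * (H : ℝ) ^ 2) n with h16 | h16
    · have h1 := Pool.Agent.L7h52.LF.tup_le (Gam T) m H (Real.log T) hl
        (fun x hx => lt_of_lt_of_le hlδ (hlow T x hx))
      rw [htup]
      refine h1.trans ((hmain h16 (fun _ => 0)).trans ?_)
      gcongr
    · have h1 : (tuples T m H : ℝ) ≤ n ^ m := by
        rw [htup, hn]
        have h2 := Finset.card_filter_le (Fintype.piFinset (fun _ : Fin m => Gam T))
          (fun x : Fin m → ℝ => ∃ r : Fin m → ℤ, r ≠ 0 ∧ (∀ i, |r i| ≤ (H : ℤ)) ∧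
          |∑ i, (r i : ℝ) * x i| * Real.log T ≤ 1)
        have h3 : (Fintype.piFinset (fun _ : Fin m => Gam T)).card = (Gam T).card ^ m := by
          rw [Fintype.card_piFinset, Finset.prod_const, Finset.card_univ, Fintype.card_fin]
        rw [h3] at h2
        exact_mod_cast h2
      have h2 : n ^ m = n * n ^ (m - 1) := by
        rw [← pow_succ']; congr 1; omega
      rw [h2] at h1
      refine h1.trans ?_
      have h3 : n ≤ C * Pool.Agent.L7h52.LF.Th m H := by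
        calc n ≤ 16 * C0 * (H : ℝ) ^ 2 := h16.le
          _ ≤ C * Pool.Agent.L7h52.LF.Th m H := by gcongr
      gcongr
  · have hpop : ∀ r : Fin m → ℤ, ∃ y : ℝ, (∀ i, |r i| ≤ (H : ℤ)) →
        n ^ m ≤ (m * H * N + 2) * (count T r y : ℝ) := by
      intro r
      by_cases hr : ∀ i, |r i| ≤ (H : ℤ)
      · obtain ⟨y, hy⟩ := Pool.Agent.L7h52.LF.popular (Gam T) m H T (Real.log T) hl hTp
          (fun x hx => Pool.Agent.L7h52.AR.Gam_pos hx) r hr
        refine ⟨y, fun _ => ?_⟩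
        rw [hn, hN]
        have h1 : (count T r y : ℝ) = (((Fintype.piFinset (fun _ : Fin m => Gam T)).filter
            (fun x : Fin m → ℝ => |∑ i, (r i : ℝ) * x i - y| * Real.log T ≤ 1)).card : ℝ) := by
          unfold count
          have h : {x : Fin m → ℝ | (∀ i, x i ∈ Om T) ∧
              |∑ i, (r i : ℝ) * x i - y| * Real.log T ≤ 1} =
              (((Fintype.piFinset (fun _ : Fin m => Gam T)).filter (fun x : Fin m → ℝ =>
                |∑ i, (r i : ℝ) * x i - y| * Real.log T ≤ 1) : Finset (Fin m → ℝ)) :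
                Set (Fin m → ℝ)) := by
            ext x
            simp only [Om_eq, Set.mem_ofPred_eq, Finset.coe_filter, Fintype.mem_piFinset,
              Finset.mem_coe]
          rw [h, Set.ncard_coe_finset]
        rw [h1]
        exact hy
      · exact ⟨0, fun h => absurd h hr⟩
    choose y hy using hpop
    refine ⟨y, ?_⟩
    rw [hsumeq]
    obtain ⟨S, hS⟩ : ∃ S : ℝ, S = ∑ r ∈ Pool.Agent.L7h52.LF.RZ m H, (count T r (y r) : ℝ) :=
      ⟨_, rfl⟩
    have hS0 : 0 ≤ S := by rw [hS]; exact Finset.sum_nonneg fun r _ => Nat.cast_nonneg _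
    rw [← hS]
    have h1 : (H : ℝ) ^ m * n ^ m ≤ (m * H * N + 2) * S := by
      calc (H : ℝ) ^ m * n ^ m ≤ (Pool.Agent.L7h52.LF.RZ m H).card * n ^ m := by
            have := card_RZ m H (by omega)
            gcongr
        _ = ∑ _r ∈ Pool.Agent.L7h52.LF.RZ m H, n ^ m := by rw [Finset.sum_const, nsmul_eq_mul]
        _ ≤ ∑ r ∈ Pool.Agent.L7h52.LF.RZ m H, (m * H * N + 2) * (count T r (y r) : ℝ) :=
            Finset.sum_le_sum fun r hr => hy r (Pool.Agent.L7h52.LF.mem_RZ.1 hr).1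
        _ = (m * H * N + 2) * S := by rw [hS, Finset.mul_sum]
    have h2 : m * H * N + 2 ≤ C * (H * n) := by
      have e1 : 1 ≤ H * N := by nlinarith
      calc m * H * N + 2 ≤ (m + 2) * (H * N) := by nlinarith
        _ ≤ (m + 2) * (H * (C0 * n)) := by gcongr
        _ = (m + 2) * C0 * (H * n) := by ring
        _ ≤ C * (H * n) := by gcongr
    have h3 : (H : ℝ) ^ (m - 1) * n ^ (m - 1) * (H * n) ≤ C * S * (H * n) := by
      have e1 : (H : ℝ) ^ m = (H : ℝ) ^ (m - 1) * H := by rw [← pow_succ]; congr 1; omega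
      have e2 : n ^ m = n ^ (m - 1) * n := by rw [← pow_succ]; congr 1; omega
      calc (H : ℝ) ^ (m - 1) * n ^ (m - 1) * (H * n) = (H : ℝ) ^ m * n ^ m := by rw [e1, e2]; ring
        _ ≤ (m * H * N + 2) * S := h1
        _ ≤ C * (H * n) * S := by gcongr
        _ = C * S * (H * n) := by ring
    exact le_of_mul_le_mul_right h3 (by positivity)
  · intro hCn x hx
    refine Pool.Agent.L7h52.LF.dirichlet m H x T (Real.log T) (by omega) hH hl ?_ ?_
    · intro i
      exact ⟨(hx i).1.le, (hx i).2.1⟩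
    · refine le_trans ?_ hCn
      rw [← hN]
      calc (m : ℝ) * N ≤ m * (C0 * n) := by gcongr
        _ = m * C0 * n := by ring
        _ ≤ (m + 2) * C0 * n := by
          have : (m : ℝ) ≤ m + 2 := by linarith
          gcongr
        _ ≤ C * n := by gcongr

end Pool.Agent.Results.MP_0ec205_nt.LinearFormsOnAverage
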