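import Pool.Agent.L7h52.LO.Up2
import Pool.Agent.L7h52.LO.Low2
import Pool.Agent.L7h52.AR.Zin

/-!
# The Littlewood–Offord problem for the ordinates of zeta zeros

No hypothesis on the zeros is assumed.  Let `n` be the number of the ordinates in `(0, T]` of
nontrivial zeros of `ζ`.  There is an absolute constant `C` with the following properties.

* (1) Let `0 < η ≤ 1` and `T ≥ C / η ^ 2`, let `r` be a real vector with `m` entries, of which at least
  `k ≥ 2` have modulus at least `b > 0`.  Let the corresponding variables `x_i` range over sets `A_i` of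
  at least `η n` ordinates in `(0, T]`, and the other variables over any finite sets `A_i` of real
  numbers.  Then for every real `y` the number of `x` with `|r · x - y| ≤ b / log T` is at most
  `(C / η ^ 9) ∏ |A_i| / (n √k)`.
* (2) If `b ^ 2 ≤ ∑ r_i ^ 2` and `T ≥ C`, then for some `y` the number of `m`-tuples `x` of ordinates in
  `(0, T]` with `|r · x - y| ≤ b / log T` is at least `b n ^ (m - 1) / (C (∑ r_i ^ 2) ^ (1/2))`.

So if `b ≤ |r_i| ≤ B b` for all `i`, then the largest number (over `y`) of `m`-tuples of ordinates in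
`(0, T]` with `|r · x - y| ≤ b / log T` is between `n ^ (m - 1) / (C B √m)` and
`C n ^ (m - 1) / √m`, for all `m ≥ 2` and `T ≥ C`.

Idea of the proof.  Let `G (v) = ∑ exp (i v x)` over `x ∈ A`, and let
`D (v) = |A| ^ 2 - |G (v)| ^ 2 = ∑ |exp (i v (x - y)) - 1| ^ 2 / 2` be the deficiency.  Its square root is
subadditive.  If `D (s)` were small for some `s` with `1 / T ≤ s ≤ c log T`, then `D` would be small
at the first multiples of `s`, hence the mean square of `G` on `[0, log T]` would be too large: it is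
controlled by the number of close pairs of ordinates.  Hence every window of length `c log T` contains
at most one peak of `|G|` (points where `D (v) ≤ c' |A| ^ 2`), of length at most `1 / T`, and
there `|G|` decays like a Gaussian function.  Therefore the integral of `|G| ^ k` over `[0, V]`,
`V ≥ log T`, is at most `C V |A| ^ k / (T log T √k)`, and this controls the integral of the product of
the sums which counts the solutions.
-/

set_option autoImplicit false

namespace Pool.Agent.Results.MP_0ec205_nt.LittlewoodOfford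

/-- the ordinates in `(0, T]` of nontrivial zeros of `ζ` -/
def Om (T : ℝ) : Set ℝ :=
  {x | 0 < x ∧ x ≤ T ∧ ∃ ρ : ℂ, ρ.im = x ∧ 0 < ρ.re ∧ ρ.re < 1 ∧ riemannZeta ρ = 0}

/-- the number of the `x` with `x i ∈ A i` for all `i` and `|r · x - y| ≤ w` -/
noncomputable def near {m : ℕ} (A : Fin m → Set ℝ) (r : Fin m → ℝ) (y w : ℝ) : ℕ :=
  Set.ncard {x : Fin m → ℝ | (∀ i, x i ∈ A i) ∧ |∑ i, r i * x i - y| ≤ w}

open Pool.Agent.L7h52.AR Pool.Agent.TH801.LU in
lemma Om_eq (T : ℝ) : Om T = (Gam T : Set ℝ) := by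
  ext x
  rw [Finset.mem_coe, mem_Gam]
  constructor
  · rintro ⟨h1, h2, ρ, h3, h4, h5, h6⟩
    refine ⟨ρ, ?_, h3⟩
    rw [mem_ZZ, h3]
    exact ⟨h4, h5, h1, h2, h6⟩
  · rintro ⟨ρ, h, h3⟩
    rw [mem_ZZ, h3] at h
    exact ⟨h.2.2.1, h.2.2.2.1, ρ, h3, h.1, h.2.1, h.2.2.2.2⟩

open Pool.Agent.TH801.LU in
lemma ncard_Om (T : ℝ) : (Om T).ncard = (Gam T).card := by
  rw [Om_eq, Set.ncard_coe_finset]

open Pool.Agent.L7h52.LO in
lemma near_eq {m : ℕ} (A : Fin m → Finset ℝ) (r : Fin m → ℝ) (y w : ℝ) :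
    (near (fun i => (A i : Set ℝ)) r y w : ℝ) = cntA A r y w := by
  classical
  unfold near cntA
  have h : {x : Fin m → ℝ | (∀ i, x i ∈ (A i : Set ℝ)) ∧ |∑ i, r i * x i - y| ≤ w} =
      (((Fintype.piFinset A).filter (fun x : Fin m → ℝ => |∑ i, r i * x i - y| ≤ w) :
        Finset (Fin m → ℝ)) : Set (Fin m → ℝ)) := by
    ext x
    simp only [Set.mem_ofPred_eq, Finset.coe_filter, Fintype.mem_piFinset, Finset.mem_coe]
  rw [h, Set.ncard_coe_finset]

open Pool.Agent.L7h52.LO in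
/-- **Theorem.** -/
theorem result : ∃ C : ℝ, 1 ≤ C ∧
    (∀ η T : ℝ, 0 < η → η ≤ 1 → C ≤ η ^ 2 * T →
      ∀ (m : ℕ) (A : Fin m → Set ℝ) (S : Finset (Fin m)) (r : Fin m → ℝ) (b y : ℝ),
      (∀ i, (A i).Finite) → 0 < b → 2 ≤ S.card →
      (∀ i ∈ S, b ≤ |r i| ∧ A i ⊆ Om T ∧ η * ((Om T).ncard : ℝ) ≤ ((A i).ncard : ℝ)) →
      (near A r y (b / Real.log T) : ℝ) * (Real.sqrt S.card * ((Om T).ncard : ℝ)) ≤
        C / η ^ 9 * ∏ i, ((A i).ncard : ℝ)) ∧
    (∀ T : ℝ, C ≤ T → ∀ (m : ℕ) (r : Fin m → ℝ) (b : ℝ), 0 < b → b ^ 2 ≤ ∑ i, r i ^ 2 →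
      ∃ y : ℝ, b * ((Om T).ncard : ℝ) ^ (m - 1) ≤
        C * Real.sqrt (∑ i, r i ^ 2) * (near (fun _ : Fin m => Om T) r y (b / Real.log T) : ℝ)) := by
  classical
  obtain ⟨C0, T0, hC0, hT0, hdat⟩ := Pool.Agent.L7h52.AR.dat
  have hC00 : 0 < C0 := by linarith
  obtain ⟨C, hC⟩ : ∃ C : ℝ, C = 4 * 10 ^ 8 * C0 ^ 10 + 4 * C0 ^ 2 + T0 + 6 * C0 := ⟨_, rfl⟩
  have hp10 : 0 < C0 ^ 10 := by positivity
  have hp2 : 0 < C0 ^ 2 := by positivity
  have hC1 : 4 * 10 ^ 8 * C0 ^ 10 ≤ C := by rw [hC]; linarith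
  have hC2 : 4 * C0 ^ 2 ≤ C := by rw [hC]; linarith
  have hC3 : T0 ≤ C := by rw [hC]; linarith
  have hC4 : 6 * C0 ≤ C := by rw [hC]; linarith
  have hCp : 0 < C := by linarith
  refine ⟨C, by linarith, ?_, ?_⟩
  · intro η T hη hη1 hT m A S r b y hfin hb hS hA
    have hη2 : η ^ 2 ≤ 1 := by nlinarith
    have hη20 : 0 < η ^ 2 := by positivity
    have hTpos : 0 < T := by
      by_contra hneg
      push Not at hneg
      have : η ^ 2 * T ≤ 0 := mul_nonpos_of_nonneg_of_nonpos hη20.le hneg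
      linarith
    have hCT : C ≤ T := by nlinarith
    have hD := hdat T (hC3.trans hCT)
    have hl0 : 0 < Real.log T := by linarith [hD.hl]
    obtain ⟨A', hA'⟩ : ∃ A' : Fin m → Finset ℝ, A' = fun i => (hfin i).toFinset := ⟨_, rfl⟩
    have hAA : A = fun i => (A' i : Set ℝ) := by
      funext i
      rw [hA']
      simp only [Set.Finite.coe_toFinset]
    rw [hAA] at hA ⊢
    simp only [Set.ncard_coe_finset] at hA ⊢
    rw [near_eq, ncard_Om]
    rw [ncard_Om, Om_eq] at hA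
    have hDi : ∀ i ∈ S, Pool.Agent.L7h52.AR.Dat (A' i) T (Real.log T) (C0 / η) := by
      intro i hi
      exact dense hD (Finset.coe_subset.1 (hA i hi).2.1) hη hη1 (hA i hi).2.2
    have hCη : 1 ≤ C0 / η := by rw [le_div_iff₀ hη]; linarith
    have h4 : 4 * (C0 / η) ^ 2 ≤ T := by
      rw [div_pow, mul_div_assoc', div_le_iff₀ hη20]
      linarith
    have h1 := upA h4 hD.hT hD.hl hCη A' S hS hDi r b y hb (fun i hi => (hA i hi).1)
    have h2 := C5_le C0 η hC0 hη hη1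
    have hup := hD.up
    have hTl : 0 < T * Real.log T := by positivity
    obtain ⟨n, hn⟩ : ∃ n : ℝ, n = ((Pool.Agent.TH801.LU.Gam T).card : ℝ) := ⟨_, rfl⟩
    obtain ⟨c, hc⟩ : ∃ c : ℝ, c = cntA A' r y (b / Real.log T) := ⟨_, rfl⟩
    obtain ⟨s, hs⟩ : ∃ s : ℝ, s = Real.sqrt S.card := ⟨_, rfl⟩
    obtain ⟨P, hP⟩ : ∃ P : ℝ, P = ∏ i, ((A' i).card : ℝ) := ⟨_, rfl⟩
    have hsk : 0 ≤ s := by rw [hs]; exact Real.sqrt_nonneg _
    have hc0 : 0 ≤ c := by rw [hc]; exact Nat.cast_nonneg _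
    have hP0 : 0 ≤ P := by rw [hP]; exact Finset.prod_nonneg fun _ _ => Nat.cast_nonneg _
    rw [← hc, ← hs, ← hP] at h1
    rw [← hn] at hup
    rw [← hn, ← hc, ← hs, ← hP]
    calc c * (s * n) ≤ c * (s * (C0 * (T * Real.log T))) := by gcongr
      _ = C0 * (c * (s * (T * Real.log T))) := by ring
      _ ≤ C0 * (4 * C5 (C0 / η) * P) := by gcongr
      _ ≤ C0 * (4 * (10 ^ 8 * C0 ^ 9 / η ^ 9) * P) := by gcongr
      _ = (4 * 10 ^ 8 * C0 ^ 10) / η ^ 9 * P := by ring
      _ ≤ C / η ^ 9 * P := by gcongr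
  · intro T hT m r b hb hbr
    have hD := hdat T (hC3.trans hT)
    have hl0 : 0 < Real.log T := by linarith [hD.hl]
    have hs0 : 0 ≤ ∑ i, r i ^ 2 := Finset.sum_nonneg fun _ _ => sq_nonneg _
    have hR : Real.sqrt (∑ i, r i ^ 2) ^ 2 = ∑ i, r i ^ 2 := Real.sq_sqrt hs0
    have hbR : b ≤ Real.sqrt (∑ i, r i ^ 2) := Real.le_sqrt_of_sq_le hbr
    obtain ⟨y, hy⟩ := low2 hD m r b _ hb hbR hR
    refine ⟨y, ?_⟩
    have h1 : (near (fun _ : Fin m => Om T) r y (b / Real.log T) : ℝ) =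
        (((Fintype.piFinset (fun _ : Fin m => Pool.Agent.TH801.LU.Gam T)).filter
        (fun x : Fin m → ℝ => |∑ i, r i * x i - y| * Real.log T ≤ b)).card : ℝ) := by
      have e1 : (fun _ : Fin m => Om T) =
          fun _ : Fin m => ((Pool.Agent.TH801.LU.Gam T : Finset ℝ) : Set ℝ) := by
        funext i
        exact Om_eq T
      rw [e1, near_eq (fun _ : Fin m => Pool.Agent.TH801.LU.Gam T)]
      unfold cntA
      simp only [le_div_iff₀ hl0]
    rw [h1, ncard_Om]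
    refine hy.trans ?_
    have hsq := Real.sqrt_nonneg (∑ i, r i ^ 2)
    gcongr

end Pool.Agent.Results.MP_0ec205_nt.LittlewoodOfford
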